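import Mathlib
import Pool.Agent.H15.G.R_seed8.W608.Heal

set_option autoImplicit false

/-!
# From the degree `d` monomials minus a part of a corner to a balanced shape
-/

namespace Pool.Agent.W608

open Polynomial Pool.Agent.H932R2 Pool.Agent.H932R3

/-- First shape. -/
def M1R (δ d u : ℕ) (R : Finset (ℕ × ℕ)) : Set (ℕ × ℕ) :=
  {p | p ∈ M1set δ d ∧ (p.2 < u ∨ (p.2 = u ∧ ((δ * u + p.1 % δ, p.1 / δ) : ℕ × ℕ) ∉ R))}

theorem mem_M1R {δ d u i l : ℕ} {R : Finset (ℕ × ℕ)} :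
    ((i, l) : ℕ × ℕ) ∈ M1R δ d u R ↔
      i / δ + i % δ + δ * l ≤ d ∧ (l < u ∨ (l = u ∧ ((δ * u + i % δ, i / δ) : ℕ × ℕ) ∉ R)) :=
  Iff.rfl

theorem step_M1R {δ d u B : ℕ} {R : Finset (ℕ × ℕ)} (hδ : 0 < δ) (hB : d ≤ B)
    (hR : ∀ p ∈ R, δ * u ≤ p.1) :
    DomY δ B (Tset d \ (↑R : Set (ℕ × ℕ))) (M1R δ d u R) := by
  refine domY_of_block fun i q hp => ?_
  rw [mem_M1R] at hp
  obtain ⟨hp, hp2⟩ := hp
  obtain ⟨a, ha⟩ : ∃ a, a = i / δ := ⟨_, rfl⟩
  obtain ⟨b, hb⟩ : ∃ b, b = i % δ := ⟨_, rfl⟩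
  have hi : δ * a + b = i := by rw [ha, hb]; exact Nat.div_add_mod i δ
  have hbδ : b < δ := by rw [hb]; exact Nat.mod_lt _ hδ
  rw [← ha, ← hb] at hp hp2
  have hq : q ≤ δ * q := Nat.le_mul_of_pos_left q hδ
  refine ⟨a, by omega, ?_, fun l hl hl' x hx => ⟨?_, fun hmem => ?_⟩⟩
  · rw [Nat.mul_add]
    omega
  · rw [mem_Tset]
    obtain ⟨e, rfl⟩ := Nat.exists_eq_add_of_le hl
    have h1 : δ * (a + e) = δ * a + δ * e := by ring
    have he : e ≤ δ * e := Nat.le_mul_of_pos_left e hδ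
    omega
  · have h1 := hR _ hmem
    simp only at h1
    have h2 : x + δ * l < δ * (a + q + 1) := by
      rw [hx, ← hi]
      have : δ * (a + q + 1) = δ * a + δ * q + δ := by ring
      omega
    have h3 : δ * (u + l) < δ * (a + q + 1) := by
      rw [Nat.mul_add]
      omega
    have h4 : u + l < a + q + 1 := Nat.lt_of_mul_lt_mul_left h3
    rcases hp2 with h5 | ⟨h5, h6⟩
    · omega
    · have h7 : l = a := by omega
      refine h6 ?_
      have h8 : x = δ * u + b := by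
        rw [h7, h5, ← hi] at hx
        omega
      rw [h8, h7] at hmem
      exact hmem

theorem step_DR {δ d u b B : ℕ} {R : Finset (ℕ × ℕ)} (hδ : 0 < δ) (hd : d + 1 = δ * u + b)
    (hB : δ * d ≤ B) :
    DomX B (M1R δ d u R) (Phi (δ * δ) u (δ * δ * u + δ * b - cc δ) (cnt δ b - R.card)) := by
  classical
  refine domX_of_card fun i q hp => ?_
  rw [mem_Phi] at hp
  obtain ⟨A, hA, hM⟩ := exists_cols δ d q hδ
  have hbound : ∀ x ∈ A, x ≤ B := by
    intro x hx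
    have h1 := hM x hx
    refine le_trans ?_ hB
    have h2 := Nat.div_add_mod x δ
    have h3 : δ * (x / δ + x % δ) ≤ δ * d := Nat.mul_le_mul_left _ (by omega)
    have h4 : x % δ ≤ δ * (x % δ) := Nat.le_mul_of_pos_left _ hδ
    rw [Nat.mul_add] at h3
    omega
  rcases hp with ⟨hq, hi⟩ | ⟨rfl, hi⟩
  · refine ⟨A, ?_, fun x hx => ⟨hbound x hx, mem_M1R.2 ⟨hM x hx, Or.inl hq⟩⟩⟩
    obtain ⟨w, rfl⟩ := Nat.exists_eq_add_of_lt hq
    have h1 : d + 1 - δ * q = δ * (w + 1) + b := by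
      rw [hd]
      have : δ * (q + w + 1) = δ * q + δ * (w + 1) := by ring
      omega
    rw [h1] at hA
    have h2 := cnt_add δ (δ * (w + 1) + b)
    have h3 : YY δ (δ * (w + 1) + b) = 0 := YY_zero (by nlinarith)
    have h4 : δ * (δ * (w + 1) + b) = δ * δ * (w + 1) + δ * b := by ring
    have h5 : δ * δ * (q + w + 1) = δ * δ * q + δ * δ * (w + 1) := by ring
    rw [h4, h3] at h2
    rw [h5] at hi
    omega
  · refine ⟨A.filter fun x => ((δ * q + x % δ, x / δ) : ℕ × ℕ) ∉ R, ?_, fun x hx => ?_⟩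
    · have h1 : d + 1 - δ * q = b := by omega
      rw [h1] at hA
      have h2 := Finset.card_filter_add_card_filter_not (s := A)
        (fun x => ((δ * q + x % δ, x / δ) : ℕ × ℕ) ∈ R)
      have h3 : (A.filter fun x => ((δ * q + x % δ, x / δ) : ℕ × ℕ) ∈ R).card ≤ R.card := by
        refine Finset.card_le_card_of_injOn (fun x => (δ * q + x % δ, x / δ))
          (fun x hx => (Finset.mem_filter.1 hx).2) ?_
        intro x _ y _ hxy
        simp only [Prod.mk.injEq] at hxy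
        have h4 := Nat.div_add_mod x δ
        have h5 := Nat.div_add_mod y δ
        rw [hxy.2] at h4
        omega
      omega
    · rw [Finset.mem_filter] at hx
      exact ⟨hbound x hx.1, mem_M1R.2 ⟨hM x hx.1, Or.inr ⟨rfl, hx.2⟩⟩⟩

variable {K : Type*} [Field K] [Infinite K] {𝓘 : Set (Ideal K[X][X])} {n : ℕ}

theorem start_phi (h𝓘 : Stable 𝓘) {δ d u b B : ℕ} {R : Finset (ℕ × ℕ)} (hδ : 0 < δ)
    (hd : d + 1 = δ * u + b) (hB : δ * d ≤ B)
    (hK : ∀ k : ℕ, 0 < k → k ≤ B → (k : K) ≠ 0) (hR : ∀ p ∈ R, δ * u ≤ p.1)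
    (h : RkS 𝓘 (Phi (δ * δ) u (δ * δ * u + δ * b - cc δ) (cnt δ b - R.card)) n) :
    RkS 𝓘 (Tset d \ (↑R : Set (ℕ × ℕ))) n := by
  have hdB : d ≤ B := (Nat.le_mul_of_pos_left d hδ).trans hB
  exact RkS.compressY h𝓘 δ B hK (step_M1R hδ hdB hR)
    (RkS.compressX h𝓘 B hK (step_DR hδ hd hB) h)

/-- From a balanced shape to the degree `d` monomials minus a part of a corner. -/
theorem start_heal (h𝓘 : Stable 𝓘) (hK : ∀ k : ℕ, 0 < k → (k : K) ≠ 0) {δ d u b g e : ℕ}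
    {R : Finset (ℕ × ℕ)} (hδ : 2 ≤ δ) (hu : 1 ≤ u) (he : δ = b + e) (hd : d + 1 = δ * u + b)
    (hR : ∀ p ∈ R, δ * u ≤ p.1) (hg : 2 * R.card + e = 2 * g + e * e)
    (ht : δ * δ + 2 * (g + u + 1) ≤ 2 * (δ * b) + δ) :
    ∃ κ t' j, t' < δ * δ + 2 * κ ∧ j ≤ u + 1 ∧ κ * (u + 1) ≤ g + u + 1 ∧
      sz (δ * δ + 2 * κ) u t' j + 2 * R.card = (d + 1) * (d + 2) ∧
      (RkS 𝓘 (Lset (δ * δ + 2 * κ) ((δ * δ + 2 * κ) * u + t') j) n →
        RkS 𝓘 (Tset d \ (↑R : Set (ℕ × ℕ))) n) := by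
  have hcc := cc_two δ
  have hYY := YY_two b e
  rw [← he] at hYY
  have hcnt := cnt_add δ b
  have hbδ : δ * b ≤ δ * δ := Nat.mul_le_mul_left _ (by omega)
  have hδδ : 2 * δ ≤ δ * δ := Nat.mul_le_mul_right _ hδ
  obtain ⟨t, htd⟩ : ∃ t, δ * b = t + cc δ := ⟨δ * b - cc δ, by omega⟩
  obtain ⟨X, hX⟩ : ∃ X, cnt δ b = X + R.card := ⟨cnt δ b - R.card, by omega⟩
  obtain ⟨κ, t', j, h1, h2, h3, h4, h5⟩ := heal (n := n) h𝓘 (δ * d + u) (fun k hk _ => hK k hk) u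
    hu (by omega) g (δ * δ) t X (by omega) (by omega) (by omega)
  refine ⟨κ, t', j, h1, h2, h3, ?_, fun hRk => ?_⟩
  · rw [h4, show d + 2 = (d + 1) + 1 from rfl, hd]
    zify at he hcc hYY hcnt htd hX hg ⊢
    have he' : (e : ℤ) = δ - b := by linarith
    rw [he'] at hYY
    have ht' : (t : ℤ) = δ * b - cc δ := by linarith
    have hX' : (X : ℤ) = δ * b + YY δ b - cc δ - R.card := by linarith
    rw [ht', hX']
    linear_combination hYY - ((u : ℤ) + 1) * hcc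
  · refine start_phi h𝓘 (by omega) hd (B := δ * d + u) (by omega) (fun k hk _ => hK k hk) hR ?_
    have e1 : δ * δ * u + δ * b - cc δ = δ * δ * u + t := by omega
    have e2 : cnt δ b - R.card = X := by omega
    rw [e1, e2]
    exact h5 hRk

end Pool.Agent.W608
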