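import Mathlib
import Pool.Agent.H15.G.R_seed8.H932R7.Final2
import Pool.Agent.H15.G.R_seed8.W608.Start
import Pool.Agent.H15.G.R_seed8.W608.Comb

set_option autoImplicit false

/-!
# Exact ranks near the critical degree when some multiplicity is frequent
-/

namespace Pool.Agent.W608

open Polynomial Pool.Agent.H932R2 Pool.Agent.H932R3 Pool.Agent.H932R7

theorem t_x : P_X := T_X T_STAB T_CH t_blk T_SPLIT

theorem t_tr : P_TR := T_TR T_RK

/-- The corner of the monomials of degree at most `d`. -/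
def Corner (d e : ℕ) : Finset (ℕ × ℕ) := (Tfin d).filter fun p => e ≤ p.1

theorem mem_Corner {d e i l : ℕ} : ((i, l) : ℕ × ℕ) ∈ Corner d e ↔ i + l ≤ d ∧ e ≤ i := by
  unfold Corner
  rw [Finset.mem_filter]
  have : ((i, l) : ℕ × ℕ) ∈ (↑(Tfin d) : Set (ℕ × ℕ)) ↔ i + l ≤ d := by
    rw [coe_Tfin, mem_Tset]
  rw [Finset.mem_coe] at this
  rw [this]

theorem corner_dom {d e c B : ℕ} (h : c + e ≤ d) (hB : d ≤ B) :
    DomX B (↑(Corner d e) : Set (ℕ × ℕ)) (Tset c) := by
  classical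
  refine domX_of_card fun i q hp => ?_
  rw [mem_Tset] at hp
  refine ⟨(Finset.range (i + 1)).image fun x => e + x, ?_, fun x hx => ?_⟩
  · rw [Finset.card_image_of_injective _ (add_right_injective e), Finset.card_range]
    omega
  · rw [Finset.mem_image] at hx
    obtain ⟨y, hy, rfl⟩ := hx
    rw [Finset.mem_range] at hy
    refine ⟨by omega, ?_⟩
    rw [Finset.mem_coe, mem_Corner]
    omega

/-- The ranks for an arbitrary finite set of points. -/
theorem ranks_ι {K : Type} [Field K] [CharZero K] {ι : Type} [Fintype ι] (w : ι → ℕ) (m d : ℕ)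
    (hm : 0 < m) (hw : ∀ a, w a ≤ m) (hB : Big m ((d + 1) * (d + 2)))
    (h : Aw w + 2 * (m + 1).choose 3 ≤ (d + 2).choose 2) : RkS (PF K w) (Tset d) (Aw w) := by
  classical
  have e := Fintype.equivFin ι
  have hA : Aw (fun i => w (e.symm i)) = Aw w := by
    unfold Aw
    exact Fintype.sum_equiv e.symm _ _ fun _ => rfl
  have h1 := (t_ranks K (Fintype.card ι) (fun i => w (e.symm i)) m d hm (fun i => hw _) hB).1
    (by rw [hA]; exact h)
  rw [← coe_Tfin] at h1 ⊢
  refine (t_tr K ι (Fin (Fintype.card ι)) w (fun i => w (e.symm i))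
    ((Function.Embedding.subtype _).trans e.toEmbedding) (fun a => ?_) (Tfin d)).1 h1
  simp

theorem card_tail {ι : Type} [Fintype ι] (w : ι → ℕ) (k c E : ℕ) (hc : 0 < c)
    (hE : E + c ≤ (Finset.univ.filter fun a => w a = k).card * c) (base : ℕ) :
    ∃ S ⊆ Finset.univ.filter fun a => w a = k, E ≤ base + S.card * c ∧
      S.card * c < E + c := by
  classical
  obtain ⟨x, hx⟩ : ∃ x, x = (E - base + c - 1) / c := ⟨_, rfl⟩
  have h1 : x * c ≤ E - base + c - 1 := by
    rw [hx]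
    exact Nat.div_mul_le_self _ _
  have h2 : E - base + c - 1 < x * c + c := by
    rw [hx]
    exact Nat.lt_div_mul_add hc
  have h3 : x ≤ (Finset.univ.filter fun a => w a = k).card := by
    by_contra hcon
    have h4 : ((Finset.univ.filter fun a => w a = k).card + 1) * c ≤ x * c :=
      Nat.mul_le_mul_right _ (by omega)
    have h5 : ((Finset.univ.filter fun a => w a = k).card + 1) * c =
      (Finset.univ.filter fun a => w a = k).card * c + c := by ring
    omega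
  obtain ⟨S, hS, hSc⟩ := Finset.exists_subset_card_eq h3
  refine ⟨S, hS, ?_, ?_⟩
  · rw [hSc]
    omega
  · rw [hSc]
    omega

/-- The points inside and outside of a set. -/
theorem split_S {K : Type} [Field K] [Infinite K] {ι : Type} [Fintype ι] (w : ι → ℕ)
    (S : Finset ι) (M : Finset (ℕ × ℕ)) (N : ℕ)
    (h : RkS (PF K (Sum.elim (fun a : {a // a ∈ S} => w a) (fun a : {a // a ∉ S} => w a)))
      (↑M : Set (ℕ × ℕ)) N) :
    RkS (PF K w) (↑M : Set (ℕ × ℕ)) N := by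
  classical
  refine (t_tr K ({a // a ∈ S} ⊕ {a // a ∉ S}) ι
    (Sum.elim (fun a : {a // a ∈ S} => w a) (fun a : {a // a ∉ S} => w a)) w
    ((Function.Embedding.subtype _).trans (Equiv.sumCompl (· ∈ S)).toEmbedding)
    (fun a => ?_) M).2 N h
  obtain ⟨a | a, ha⟩ := a
  · exact le_rfl
  · exact le_rfl

theorem Aw_split {ι : Type} [Fintype ι] (w : ι → ℕ) (S : Finset ι) [Fintype {a // a ∉ S}] :
    Aw w = Aw (fun a : {a // a ∈ S} => w a) + Aw (fun a : {a // a ∉ S} => w a) := by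
  classical
  unfold Aw
  have h1 := Fintype.sum_equiv (Equiv.sumCompl (· ∈ S))
    (fun b => (w ((Equiv.sumCompl (· ∈ S)) b) + 1).choose 2) (fun a => (w a + 1).choose 2)
    (fun _ => rfl)
  rw [← h1, Fintype.sum_sum_type]
  rfl

theorem place (K : Type) [Field K] [CharZero K] {ι : Type} [Fintype ι] (w : ι → ℕ)
    (S : Finset ι) (m d δ u b e g A : ℕ) (hm : 0 < m) (hw : ∀ a, w a ≤ m)
    (hδ : 2 ≤ δ) (hu : 1 ≤ u) (he : δ = b + e) (hd : d + 1 = δ * u + b) (hb : 1 ≤ b)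
    (hA : A = Aw (fun a : {a // a ∈ S} => w a)) (hBig : Big m (b * (b + 1)))
    (hA2 : A + 2 * (m + 1).choose 3 ≤ (b + 1).choose 2)
    (hg : 2 * A + e = 2 * g + e * e)
    (ht : δ * δ + 2 * (g + u + 1) ≤ 2 * (δ * b) + δ) (N : ℕ)
    (h : ∀ κ t' j, t' < δ * δ + 2 * κ → j ≤ u + 1 → κ * (u + 1) ≤ g + u + 1 →
      sz (δ * δ + 2 * κ) u t' j + 2 * A = (d + 1) * (d + 2) →
        RkS (PF K (fun a : {a // a ∉ S} => w a))
          (↑(Lfin (δ * δ + 2 * κ) u t' j) : Set (ℕ × ℕ)) N) :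
    RkS (PF K w) (Tset d) (A + N) := by
  classical
  have : Infinite K := CharZero.infinite K
  have hK : ∀ k : ℕ, 0 < k → (k : K) ≠ 0 := fun k hk => Nat.cast_ne_zero.2 (by omega)
  rw [← coe_Tfin]
  refine split_S w S (Tfin d) _ ?_
  rw [hA]
  refine comb _ _ (Tfin d) (Corner d (δ * u)) (d + 1) (Finset.filter_subset _ _) ?_ ?_ ?_ N ?_
  · rintro ⟨i, l⟩ hx ⟨i', l'⟩ hx' hxx
    rw [coe_Tfin, mem_Tset] at hx hx'
    simp only at hxx
    have h1 : i = i' := by
      rcases Nat.lt_trichotomy i i' with h | h | h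
      · have : (d + 1) * (i + 1) ≤ (d + 1) * i' := Nat.mul_le_mul_left _ h
        rw [Nat.mul_add] at this
        omega
      · exact h
      · have : (d + 1) * (i' + 1) ≤ (d + 1) * i := Nat.mul_le_mul_left _ h
        rw [Nat.mul_add] at this
        omega
    subst h1
    rw [Prod.mk.injEq]
    exact ⟨rfl, by omega⟩
  · rintro ⟨i, l⟩ hx hx' ⟨i', l'⟩ hy
    have hx1 : i + l ≤ d := by
      have : ((i, l) : ℕ × ℕ) ∈ (↑(Tfin d) : Set (ℕ × ℕ)) := hx
      rwa [coe_Tfin, mem_Tset] at this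
    rw [mem_Corner] at hx' hy
    have h1 : (d + 1) * (i + 1) ≤ (d + 1) * i' := Nat.mul_le_mul_left _ (by omega)
    rw [Nat.mul_add] at h1
    simp only
    omega
  · obtain ⟨c, rfl⟩ : ∃ c, b = c + 1 := ⟨b - 1, by omega⟩
    rw [hA] at hA2
    have h1 := ranks_ι (K := K) (fun a : {a // a ∈ S} => w a) m c hm (fun a => hw a) hBig hA2
    exact RkS.compressX (T_STAB K _ _) (d + 1) (fun k hk _ => hK k hk)
      (corner_dom (by omega) (by omega)) h1
  · intro R hR hRc
    rw [← hA] at hRc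
    obtain ⟨κ, t', j, h1, h2, h3, h4, h5⟩ := start_heal (n := N)
      (T_STAB K _ (fun a : {a // a ∉ S} => w a)) hK (R := R) hδ hu he hd
      (fun p hp => (Finset.mem_filter.1 (hR hp)).2) (by rw [hRc]; exact hg) ht
    rw [coe_Tfin]
    refine h5 ?_
    rw [← coe_Lfin h1 h2]
    rw [hRc] at h4
    exact h κ t' j h1 h2 h3 h4

theorem choose_delta (q X P : ℕ) (hq : 0 < q) :
    ∃ δ e, δ * q = X + e ∧ e < 2 * q ∧ δ % 2 = P % 2 := by
  have h1 : (X + q - 1) / q * q ≤ X + q - 1 := Nat.div_mul_le_self _ _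
  have h2 : X + q - 1 < (X + q - 1) / q * q + q := Nat.lt_div_mul_add hq
  obtain ⟨δ, hδ⟩ : ∃ δ, δ = (X + q - 1) / q := ⟨_, rfl⟩
  rw [← hδ] at h1 h2
  by_cases hp : δ % 2 = P % 2
  · exact ⟨δ, δ * q - X, by omega, by omega, hp⟩
  · refine ⟨δ + 1, δ * q + q - X, ?_, by omega, by omega⟩
    rw [Nat.add_mul, one_mul]
    omega

/-- The required frequency. -/
def Fq (m : ℕ) : ℕ := (m + 1) * (2 * (m * m) + 10 * m + 6)

theorem num1 {m T : ℕ} (hm : 2 ≤ m) (hT : T + 2 * Fq m ≤ m * Fq m) :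
    T + 2 * ((m + 1) * (2 * m + 3)) + m * (m + 1) + m * m * m + 2 * m + 4 ≤
      (2 * (m * m) + 2 * m) * (2 * (m * m) + 2 * m + 1) := by
  obtain ⟨μ, rfl⟩ : ∃ μ, m = μ + 2 := ⟨m - 2, by omega⟩
  have h1 : (μ + 2) * Fq (μ + 2) = μ * Fq (μ + 2) + 2 * Fq (μ + 2) := by ring
  have h2 : T ≤ μ * Fq (μ + 2) := by omega
  have h3 : (2 * ((μ + 2) * (μ + 2)) + 2 * (μ + 2)) * (2 * ((μ + 2) * (μ + 2)) + 2 * (μ + 2) + 1) =
      μ * Fq (μ + 2) + 2 * ((μ + 2 + 1) * (2 * (μ + 2) + 3)) + (μ + 2) * (μ + 2 + 1) +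
        (μ + 2) * (μ + 2) * (μ + 2) + 2 * (μ + 2) + 4 +
        (2 * (μ * μ * μ * μ) + 15 * (μ * μ * μ) + 51 * (μ * μ) + 103 * μ + 92) := by
    unfold Fq
    ring
  omega

theorem big_b {m b : ℕ} (hm : 2 ≤ m) (hb : 2 * (m * m) + 2 * m ≤ b) : Big m (b * (b + 1)) := by
  unfold Big
  have hmR : (2 : ℝ) ≤ m := by exact_mod_cast hm
  have hbR : (2 : ℝ) * (m * m) + 2 * m ≤ b := by exact_mod_cast hb
  have hs0 : 0 ≤ Real.sqrt (m : ℝ) := Real.sqrt_nonneg _
  have hss : Real.sqrt (m : ℝ) * Real.sqrt m = m := Real.mul_self_sqrt (by linarith)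
  have h1 : 2 * Real.sqrt (m : ℝ) ≤ m + 1 := by nlinarith
  have h2 : (m : ℝ) + 6 * Real.sqrt m + 10 ≤ 4 * m * (m + 1) := by nlinarith
  have h3 : (m : ℝ) * (m + 1) * (m + 6 * Real.sqrt m + 10) ≤ m * (m + 1) * (4 * m * (m + 1)) :=
    mul_le_mul_of_nonneg_left h2 (by positivity)
  have h4 : (m : ℝ) * (m + 1) * (4 * m * (m + 1)) =
      (2 * (m * m) + 2 * m) * (2 * (m * m) + 2 * m) := by ring
  have h5 : (2 * ((m : ℝ) * m) + 2 * m) * (2 * (m * m) + 2 * m) ≤ b * b :=
    mul_le_mul hbR hbR (by positivity) (by positivity)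
  push_cast
  nlinarith

theorem num2 {m δ e X A κ g : ℕ} (hX : δ * (m + 2) = X + e)
    (he : e ≤ 2 * m + 3) (hκ : κ * (m + 2) ≤ g + m + 2) (hg : g ≤ A)
    (hA : 2 * A + 2 * m + 4 ≤ δ * δ) (hδ : 2 * m + 4 ≤ δ) :
    (δ * δ + 2 * κ) * (m * (m + 1)) + 2 * A ≤ X * (X + 1) := by
  have h1 : 2 * κ * (m * (m + 1)) ≤ m * (2 * A + 2 * m + 4) := by
    calc 2 * κ * (m * (m + 1)) ≤ 2 * κ * (m * (m + 2)) :=
          Nat.mul_le_mul_left _ (Nat.mul_le_mul_left _ (by omega))
      _ = m * (2 * (κ * (m + 2))) := by ring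
      _ ≤ m * (2 * A + 2 * m + 4) := Nat.mul_le_mul_left _ (by omega)
  have h2 : (m + 1) * (2 * A + 2 * m + 4) ≤ (m + 1) * (δ * δ) := Nat.mul_le_mul_left _ hA
  have h3 : (2 * m + 4) * (δ * (2 * m + 3)) ≤ δ * (δ * (2 * m + 3)) := Nat.mul_le_mul_right _ hδ
  zify at *
  have hX' : (X : ℤ) = δ * (m + 2) - e := by linarith
  have h4 : (0 : ℤ) ≤ δ * (m + 2) - (2 * m + 3) := by nlinarith
  have h5 : (δ * ((m : ℤ) + 2) - (2 * m + 3)) * (δ * (m + 2) - (2 * m + 3)) ≤ X * X := by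
    rw [hX']
    exact mul_le_mul (by linarith) (by linarith) h4 (by linarith)
  have h6 : (0 : ℤ) ≤ X := by positivity
  nlinarith

theorem two_choose' (k : ℕ) : 2 * (k + 1).choose 2 = k * (k + 1) := R4h.two_choose k

/-- Exact ranks near the critical degree. -/
theorem rank3 (K : Type) [Field K] [CharZero K] (k₀ m : ℕ) (hk₀ : 0 < k₀) (hkm : k₀ ≤ m)
    (hm2 : 2 ≤ m) (ι : Type) [Fintype ι] (w : ι → ℕ) (hw : ∀ a, w a ≤ m) (d : ℕ)
    (hd : (m + 2) * (2 * (m * m) + 4 * m + 3) ≤ d + 1)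
    (htail : (∑ a, if w a < k₀ then w a * (w a + 1) else 0) + 2 * Fq m ≤ m * Fq m)
    (hN1 : 2 * (d + 2).choose 2 < 2 * Aw w + k₀ * (k₀ + 1))
    (hN2 : 2 * Aw w < 2 * (d + 2).choose 2 + k₀ * (k₀ + 1))
    (hfr : m * (m + 1) * (m + 2) + 2 * (k₀ * (k₀ + 1)) + 2 * ((m + 1) * (2 * m + 3)) ≤
      Nat.card {a // w a = k₀} * (k₀ * (k₀ + 1))) :
    RkS (PF K w) (Tset d) (min ((d + 2).choose 2) (Aw w)) := by
  classical
  obtain ⟨c, hc⟩ : ∃ c, c = (k₀ + 1).choose 2 := ⟨_, rfl⟩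
  have hc2 : 2 * c = k₀ * (k₀ + 1) := by rw [hc]; exact two_choose' k₀
  have hc0 : 0 < c := by rw [hc]; exact Nat.choose_pos (by omega)
  have hcm : k₀ * (k₀ + 1) ≤ m * (m + 1) := Nat.mul_le_mul hkm (by omega)
  have hcard : Nat.card {a // w a = k₀} = (Finset.univ.filter fun a => w a = k₀).card := by
    rw [Nat.card_eq_fintype_card, Fintype.card_subtype]
  rw [hcard, ← hc2] at hfr
  rw [← hc2] at hN1 hN2 hcm
  have e1 : (Finset.univ.filter fun a => w a = k₀).card * (2 * c) =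
      2 * ((Finset.univ.filter fun a => w a = k₀).card * c) := by ring
  rw [e1] at hfr
  obtain ⟨base, hbase⟩ : ∃ base, base = ∑ a ∈ Finset.univ.filter (fun a => w a < k₀),
    (w a + 1).choose 2 := ⟨_, rfl⟩
  have hbase2 : 2 * base = ∑ a, if w a < k₀ then w a * (w a + 1) else 0 := by
    rw [hbase, Finset.mul_sum, Finset.sum_filter]
    refine Finset.sum_congr rfl fun a _ => ?_
    split_ifs
    · exact two_choose' _
    · rfl
  rw [← hbase2] at htail
  obtain ⟨S', hS', hS1, hS2⟩ := card_tail w k₀ c ((m + 1) * (2 * m + 3)) hc0 (by omega) base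
  obtain ⟨S, hS⟩ : ∃ S, S = Finset.univ.filter (fun a => w a < k₀) ∪ S' := ⟨_, rfl⟩
  have hdisj : Disjoint (Finset.univ.filter (fun a => w a < k₀)) S' := by
    rw [Finset.disjoint_left]
    intro a ha ha'
    have h1 := (Finset.mem_filter.1 ha).2
    have h2 := (Finset.mem_filter.1 (hS' ha')).2
    omega
  have hSin : ∀ a, a ∉ S → k₀ ≤ w a := by
    intro a ha
    by_contra hlt
    apply ha
    rw [hS, Finset.mem_union, Finset.mem_filter]
    exact Or.inl ⟨Finset.mem_univ _, not_le.1 hlt⟩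
  obtain ⟨A, hA⟩ : ∃ A, A = Aw (fun a : {a // a ∈ S} => w a) := ⟨_, rfl⟩
  have hA' : A = base + S'.card * c := by
    rw [hA]
    unfold Aw
    rw [Finset.sum_coe_sort S (fun a => (w a + 1).choose 2), hS, Finset.sum_union hdisj, ← hbase]
    congr 1
    rw [Finset.sum_congr rfl (g := fun _ => c) (fun a ha => by
      rw [(Finset.mem_filter.1 (hS' ha)).2, hc]), Finset.sum_const, smul_eq_mul]
  have hnum := num1 hm2 htail
  have h2A : 2 * A + m * m * m + 2 * m + 4 ≤
      (2 * (m * m) + 2 * m) * (2 * (m * m) + 2 * m + 1) := by omega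
  have hsplit := Aw_split w S
  obtain ⟨A₂, hA₂⟩ : ∃ A₂, A₂ = Aw (fun a : {a // a ∉ S} => w a) := ⟨_, rfl⟩
  rw [← hA, ← hA₂] at hsplit
  -- the slope
  obtain ⟨δ, e, hδe, he, hpar⟩ := choose_delta (m + 2) (d + 1) (Fintype.card {a // a ∉ S})
    (by omega)
  have hδ : 2 * (m * m) + 4 * m + 3 ≤ δ := by
    have h1 : (m + 2) * (2 * (m * m) + 4 * m + 3) ≤ (m + 2) * δ := by
      rw [mul_comm (m + 2) δ]
      omega
    exact Nat.le_of_mul_le_mul_left h1 (by omega)
  obtain ⟨b, hb⟩ : ∃ b, δ = b + e := ⟨δ - e, by omega⟩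
  have hbm : 2 * (m * m) + 2 * m ≤ b := by omega
  have hdb : d + 1 = δ * (m + 1) + b := by
    have : δ * (m + 2) = δ * (m + 1) + δ := by ring
    omega
  have hbb : (2 * (m * m) + 2 * m) * (2 * (m * m) + 2 * m + 1) ≤ b * (b + 1) :=
    Nat.mul_le_mul hbm (by omega)
  have hee : e * e = e + 2 * (e.choose 2) := by
    rcases e with _ | e
    · rfl
    · have := two_choose' e
      have h2 : (e + 1) * (e + 1) = e * (e + 1) + (e + 1) := by ring
      omega
  have hege : 2 * e.choose 2 ≤ 2 * ((m + 1) * (2 * m + 3)) := by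
    have h1 : e * e ≤ e * (2 * m + 3) := Nat.mul_le_mul_left _ (by omega)
    have h2 : 2 * e.choose 2 + e = e * e := by omega
    have h3 : 2 * e.choose 2 ≤ (2 * m + 3) * (2 * m + 2) := by
      rcases e with _ | e
      · simp
      · have h4 := two_choose' e
        rw [h4]
        rw [mul_comm e]
        exact Nat.mul_le_mul (by omega) (by omega)
    have h4 : (2 * m + 3) * (2 * m + 2) = 2 * ((m + 1) * (2 * m + 3)) := by ring
    omega
  obtain ⟨g, hg⟩ : ∃ g, A = g + e.choose 2 := ⟨A - e.choose 2, by omega⟩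
  have h3c := three_choose m
  have hb2 : 2 * (b + 1).choose 2 = b * (b + 1) := two_choose' b
  obtain ⟨C3, hC3⟩ : ∃ C3, C3 = 2 * (m + 1).choose 3 := ⟨_, rfl⟩
  rw [← hC3] at h3c
  have hm3 : 0 ≤ m * m * m := Nat.zero_le _
  obtain ⟨N₀, hN₀⟩ : ∃ N₀, (d + 2).choose 2 = A + N₀ := by
    refine ⟨(d + 2).choose 2 - A, ?_⟩
    have h1 := R3h.two_choose' d
    have h2 : b * (b + 1) ≤ (d + 1) * (d + 2) := Nat.mul_le_mul (by rw [hdb]; omega)
      (by rw [show d + 2 = d + 1 + 1 from rfl, hdb]; omega)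
    omega
  have hmin : min ((d + 2).choose 2) (Aw w) = A + min N₀ A₂ := by omega
  rw [hmin]
  have hδA : 2 * A + 2 * m + 4 ≤ δ * δ := by
    have : (2 * (m * m) + 2 * m) * (2 * (m * m) + 2 * m + 1) ≤ δ * δ :=
      Nat.mul_le_mul (by omega) (by omega)
    omega
  have hδ2 : δ * δ = b * b + 2 * (b * e) + e * e := by rw [hb]; ring
  have hδb : δ * b = b * b + b * e := by rw [hb]; ring
  have hbb' : b * (b + 1) = b * b + b := by ring
  refine place K w S m d δ (m + 1) b e g A (by omega) hw (by omega) (by omega) hb hdb (by omega)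
    hA (big_b hm2 hbm) ?_ (by omega) (by omega) _ ?_
  · rw [← hC3]
    omega
  · intro κ t' j h1 h2 h3 h4
    have hsz : sz (δ * δ + 2 * κ) (m + 1) t' j = 2 * N₀ := by
      have := R3h.two_choose' d
      omega
    have hδδ : δ ≤ δ * δ := Nat.le_mul_of_pos_left _ (by omega)
    have h3' : κ * (m + 2) ≤ g + m + 2 := h3
    have hδm : 2 * m + 4 ≤ δ := by
      have : 2 * m ≤ m * m := Nat.mul_le_mul_right m hm2
      omega
    rw [hA₂]
    refine t_x K k₀ m hk₀ hkm {a // a ∉ S} (fun a => w a) (fun a => ⟨hSin a.1 a.2, hw a.1⟩)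
      _ N₀ (δ * δ + 2 * κ) (m + 1) t' j rfl (by omega) ⟨h1, h2, by omega⟩ hsz ?_ ?_ ?_ ?_ ?_
    · have h5 := num2 (m := m) (δ := δ) (e := e) (X := d + 1) (A := A) (κ := κ) (g := g) hδe
        (by omega) h3' (by omega) hδA hδm
      have h6 := R3h.two_choose' d
      have h7 : (d + 1) * (d + 1 + 1) = (d + 1) * (d + 2) := rfl
      omega
    · rw [← hpar]
      have h5 : (δ * δ) % 2 = δ % 2 := by
        rcases Nat.mod_two_eq_zero_or_one δ with h | h <;> simp [Nat.mul_mod, h]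
      omega
    · rw [← hA₂, ← hc2]
      omega
    · rw [← hA₂, ← hc2]
      omega
    · -- the frequency
      rw [← hc2]
      have h5 : (Finset.univ.filter fun a => w a = k₀).card - S'.card ≤
          Nat.card {a : {a // a ∉ S} // w a = k₀} := by
        rw [← Finset.card_sdiff_of_subset hS', ← Fintype.card_coe, ← Nat.card_eq_fintype_card]
        refine Nat.card_le_card_of_injective (fun a => ⟨⟨a.1, ?_⟩, ?_⟩) ?_
        · have h6 := Finset.mem_sdiff.1 a.2
          have h7 := (Finset.mem_filter.1 h6.1).2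
          rw [hS, Finset.mem_union, Finset.mem_filter]
          rintro (h8 | h8)
          · omega
          · exact h6.2 h8
        · have h6 := Finset.mem_sdiff.1 a.2
          exact (Finset.mem_filter.1 h6.1).2
        · intro a b hab
          have h8 := congrArg (fun t => (t.1.1 : ι)) hab
          exact Subtype.ext h8
      have h6 := Nat.mul_le_mul_right (2 * c) h5
      have h7 : ((Finset.univ.filter fun a => w a = k₀).card - S'.card) * (2 * c) =
          2 * ((Finset.univ.filter fun a => w a = k₀).card * c) - 2 * (S'.card * c) := by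
        rw [Nat.sub_mul]
        have e2 : (Finset.univ.filter fun a => w a = k₀).card * (2 * c) =
          2 * ((Finset.univ.filter fun a => w a = k₀).card * c) := by ring
        have e3 : S'.card * (2 * c) = 2 * (S'.card * c) := by ring
        rw [e2, e3]
      omega

end Pool.Agent.W608
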