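import Mathlib
import Pool.Agent.H15.G.R_seed8.W608.Rank3

set_option autoImplicit false

/-!
# Exact ranks in every large degree, for all multiplicities at most `m`
-/

namespace Pool.Agent.W608

open Polynomial Pool.Agent.H932R2 Pool.Agent.H932R3 Pool.Agent.H932R7

theorem sum_sub_le {α : Type} [Fintype α] (p : α → Prop) [DecidablePred p] (f : α → ℕ) :
    ∑ a : {a // p a}, f a ≤ ∑ a, f a := by
  classical
  rw [← Finset.sum_subtype (Finset.univ.filter p) (by simp) f]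
  exact Finset.sum_le_sum_of_subset (Finset.filter_subset _ _)

theorem Fq_eq (m : ℕ) : Fq m = 2 * (m * (m + 1) * (m + 2)) + 2 * (m * (m + 1)) +
    2 * ((m + 1) * (2 * m + 3)) := by
  unfold Fq
  ring

theorem card_tfin (d : ℕ) : (Tfin d).card = (d + 2).choose 2 := card_Tfin' d

open R4h in
theorem rank4 (K : Type) [Field K] [CharZero K] (k₀ m : ℕ) (hk₀ : 0 < k₀) (hkm : k₀ ≤ m)
    (hm2 : 2 ≤ m) (n : ℕ) (w : Fin n → ℕ) (hw : ∀ a, w a ≤ m) (d : ℕ)
    (hd : (m + 2) * (2 * (m * m) + 4 * m + 3) ≤ d + 1)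
    (htail : (∑ a, if w a < k₀ then w a * (w a + 1) else 0) + 2 * Fq m ≤ m * Fq m)
    (hfr : Fq m ≤ Nat.card {a // w a = k₀} * (k₀ * (k₀ + 1)))
    (hW : Aw w < (d + 2).choose 2 + 2 * (m + 1).choose 3) :
    RkS (PF K w) (Tset d) (min ((d + 2).choose 2) (Aw w)) := by
  classical
  have : Infinite K := CharZero.infinite K
  have hc := R4h.two_choose k₀
  have hq : 0 < k₀ * (k₀ + 1) := by positivity
  have hqm : k₀ * (k₀ + 1) ≤ m * (m + 1) := Nat.mul_le_mul hkm (by omega)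
  rw [Fq_eq] at hfr
  obtain ⟨q, hqd⟩ : ∃ q, q = k₀ * (k₀ + 1) := ⟨_, rfl⟩
  obtain ⟨n₀, hn₀⟩ : ∃ n₀, n₀ = Nat.card {a // w a = k₀} := ⟨_, rfl⟩
  obtain ⟨c, hcd⟩ : ∃ c, c = (k₀ + 1).choose 2 := ⟨_, rfl⟩
  obtain ⟨N, hN⟩ : ∃ N, N = (d + 2).choose 2 := ⟨_, rfl⟩
  rw [← hqd] at hq hqm hc
  rw [← hqd, ← hn₀] at hfr
  rw [← hcd] at hc
  rw [← hN] at hW ⊢
  rcases Nat.le_total (Aw w) N with hAN | hNA
  · obtain ⟨x, hx⟩ : ∃ x, x = 2 * (N - Aw w) / q := ⟨_, rfl⟩
    have hx1 : x * q ≤ 2 * (N - Aw w) := by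
      rw [hx]
      exact Nat.div_mul_le_self _ _
    have hx2 : 2 * (N - Aw w) < (x + 1) * q := by
      rw [hx]
      exact (Nat.div_lt_iff_lt_mul hq).1 (Nat.lt_succ_self _)
    have hA := Aw_sum w x k₀
    rw [← hcd] at hA
    have hcard := card_sum w x k₀ hk₀
    rw [← hn₀] at hcard
    have h2 : 2 * (x * c) = x * q := by rw [← hc]; ring
    have hx3 : (x + 1) * q = x * q + q := by ring
    have h := rank3 K k₀ m hk₀ hkm hm2 ({a : Fin n // w a ≠ 0} ⊕ Fin x)
      (Sum.elim (fun a : {a : Fin n // w a ≠ 0} => w a) (fun _ : Fin x => k₀))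
      (by
        rintro (a | a)
        · exact hw a
        · exact hkm) d hd
      (by
        rw [Fintype.sum_sum_type]
        have h3 := sum_sub_le (fun a : Fin n => w a ≠ 0)
          (fun a => if w a < k₀ then w a * (w a + 1) else 0)
        have h4 : (∑ b : Fin x, if Sum.elim (fun a : {a : Fin n // w a ≠ 0} => w a)
            (fun _ : Fin x => k₀) (Sum.inr b) < k₀ then
            Sum.elim (fun a : {a : Fin n // w a ≠ 0} => w a) (fun _ : Fin x => k₀) (Sum.inr b) *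
              (Sum.elim (fun a : {a : Fin n // w a ≠ 0} => w a) (fun _ : Fin x => k₀)
                (Sum.inr b) + 1) else 0) = 0 :=
          Finset.sum_eq_zero fun b _ => if_neg (lt_irrefl _)
        rw [h4, add_zero]
        exact le_trans (Nat.add_le_add_right h3 _) htail)
      (by rw [hA, ← hN, ← hqd]; omega) (by rw [hA, ← hN, ← hqd]; omega)
      (by
        rw [← hqd]
        refine le_trans ?_ (Nat.mul_le_mul_right q hcard)
        omega)
    rw [← hN, min_eq_right (by rw [hA]; omega), ← coe_Tfin] at h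
    rw [min_eq_right hAN, ← coe_Tfin]
    exact (t_tr K (Fin n) ({a : Fin n // w a ≠ 0} ⊕ Fin x) w
      (Sum.elim (fun a : {a : Fin n // w a ≠ 0} => w a) (fun _ : Fin x => k₀))
      ⟨Sum.inl, Sum.inl_injective⟩ (fun a => le_refl _) (Tfin d)).1 h
  · have hC3 := R4h.three_choose m
    obtain ⟨W, hWd⟩ : ∃ W, W = 2 * (m + 1).choose 3 := ⟨_, rfl⟩
    rw [← hWd] at hC3 hW
    obtain ⟨x, hx⟩ : ∃ x, x = 2 * (Aw w - N) / q := ⟨_, rfl⟩
    have hx1 : x * q ≤ 2 * (Aw w - N) := by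
      rw [hx]
      exact Nat.div_mul_le_self _ _
    have hx2 : 2 * (Aw w - N) < (x + 1) * q := by
      rw [hx]
      exact (Nat.div_lt_iff_lt_mul hq).1 (Nat.lt_succ_self _)
    have hx3 : (x + 1) * q = x * q + q := by ring
    have hWm : 2 * W ≤ m * (m + 1) * (m + 2) := by nlinarith
    have hxn : x ≤ n₀ := by
      by_contra hcon
      have h1 := Nat.mul_le_mul_right q (not_le.1 hcon).le
      omega
    have e1 : n₀ = (Finset.univ.filter fun a => w a = k₀).card := by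
      rw [hn₀, Nat.card_eq_fintype_card, Fintype.card_subtype]
    obtain ⟨S, hS1, hS2⟩ := Finset.exists_subset_card_eq (hxn.trans e1.le)
    have hS : ∀ a ∈ S, w a = k₀ := fun a ha => (Finset.mem_filter.1 (hS1 ha)).2
    have hA := Aw_rem w S k₀ hS
    rw [← hcd, hS2] at hA
    have hcard := card_rem w S k₀ hk₀ hS
    rw [← hn₀, hS2] at hcard
    have h2 : 2 * (x * c) = x * q := by rw [← hc]; ring
    have h := rank3 K k₀ m hk₀ hkm hm2 {a : Fin n // w a ≠ 0 ∧ a ∉ S}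
      (fun a : {a : Fin n // w a ≠ 0 ∧ a ∉ S} => w a) (fun a => hw a.1) d hd
      (by
        have h3 := sum_sub_le (fun a : Fin n => w a ≠ 0 ∧ a ∉ S)
          (fun a => if w a < k₀ then w a * (w a + 1) else 0)
        omega)
      (by rw [← hN, ← hqd]; omega) (by rw [← hN, ← hqd]; omega)
      (by
        rw [← hqd]
        have hcard' : n₀ - x ≤
          Nat.card {b : {a : Fin n // w a ≠ 0 ∧ a ∉ S} // w b = k₀} := by omega
        refine le_trans ?_ (Nat.mul_le_mul_right q hcard')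
        rw [Nat.sub_mul]
        omega)
    rw [← hN, min_eq_left (by omega), ← coe_Tfin] at h
    rw [min_eq_left hNA, ← coe_Tfin]
    exact (t_tr K {a : Fin n // w a ≠ 0 ∧ a ∉ S} (Fin n)
      (fun a : {a : Fin n // w a ≠ 0 ∧ a ∉ S} => w a) w
      ⟨fun a => (a.1.1 : Fin n), fun a b hab => Subtype.ext (Subtype.ext hab)⟩
      (fun a => le_refl _) (Tfin d)).2 _ h

theorem tail_bound {ι : Type} [Fintype ι] (w : ι → ℕ) (hw1 : ∀ a, w a ≠ 1) (F K₀ : ℕ)
    (h : ∀ k, 2 ≤ k → k < K₀ + 2 → Nat.card {a // w a = k} * (k * (k + 1)) ≤ F) :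
    (∑ a, if w a < K₀ + 2 then w a * (w a + 1) else 0) ≤ K₀ * F := by
  classical
  induction K₀ with
  | zero =>
    rw [Finset.sum_eq_zero, Nat.zero_mul]
    intro a _
    split_ifs with h1
    · have : w a = 0 := by
        have := hw1 a
        omega
      rw [this, Nat.zero_mul]
    · rfl
  | succ K₀ ih =>
    have h1 := ih fun k hk hk' => h k hk (by omega)
    have h2 := h (K₀ + 2) (by omega) (by omega)
    have h3 : (∑ a, if w a < K₀ + 1 + 2 then w a * (w a + 1) else 0) =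
        (∑ a, if w a < K₀ + 2 then w a * (w a + 1) else 0) +
          ∑ a, if w a = K₀ + 2 then (K₀ + 2) * (K₀ + 2 + 1) else 0 := by
      rw [← Finset.sum_add_distrib]
      refine Finset.sum_congr rfl fun a _ => ?_
      rcases Nat.lt_trichotomy (w a) (K₀ + 2) with h4 | h4 | h4
      · rw [if_pos (by omega), if_pos h4, if_neg (by omega), add_zero]
      · rw [if_pos (by omega), if_neg (by omega), if_pos h4, zero_add, h4]
      · rw [if_neg (by omega), if_neg (by omega), if_neg (by omega)]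
    have h4 : (∑ a, if w a = K₀ + 2 then (K₀ + 2) * (K₀ + 2 + 1) else 0) =
        Nat.card {a // w a = K₀ + 2} * ((K₀ + 2) * (K₀ + 2 + 1)) := by
      rw [← Finset.sum_filter, Finset.sum_const, smul_eq_mul, Nat.card_eq_fintype_card,
        Fintype.card_subtype]
    rw [h3, h4, Nat.add_mul K₀ 1 F, Nat.one_mul]
    exact Nat.add_le_add h1 h2

theorem num3 {m d : ℕ} (hm : 2 ≤ m) (hd : (m + 2) * (2 * (m * m) + 4 * m + 3) ≤ d + 1) :
    m * Fq m + m * (m + 1) * (m + 2) ≤ (d + 1) * (d + 2) := by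
  have h1 : (m + 2) * (2 * (m * m) + 4 * m + 3) * ((m + 2) * (2 * (m * m) + 4 * m + 3)) ≤
      (d + 1) * (d + 2) := Nat.mul_le_mul hd (by omega)
  refine le_trans ?_ h1
  unfold Fq
  obtain ⟨μ, rfl⟩ : ∃ μ, m = μ + 2 := ⟨m - 2, by omega⟩
  nlinarith [Nat.zero_le μ, Nat.zero_le (μ * μ), Nat.zero_le (μ * μ * μ),
    Nat.zero_le (μ * μ * μ * μ), Nat.zero_le (μ * μ * μ * μ * μ),
    Nat.zero_le (μ * μ * μ * μ * μ * μ)]

theorem rank5 (K : Type) [Field K] [CharZero K] (m : ℕ) (hm2 : 2 ≤ m) (n : ℕ) (w : Fin n → ℕ)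
    (hw : ∀ a, w a ≤ m) (hw1 : ∀ a, w a ≠ 1) (d : ℕ)
    (hd : (m + 2) * (2 * (m * m) + 4 * m + 3) ≤ d + 1) :
    RkS (PF K w) (Tset d) (min ((d + 2).choose 2) (Aw w)) := by
  classical
  have hBig : Big m ((d + 1) * (d + 2)) := by
    have h1 : 2 * (m * m) + 2 * m ≤ d + 1 := by nlinarith
    exact big_b hm2 h1
  rcases le_or_gt (Aw w + 2 * (m + 1).choose 3) ((d + 2).choose 2) with h1 | h1
  · rw [min_eq_right (by omega)]
    exact (t_ranks K n w m d (by omega) hw hBig).1 h1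
  rcases le_or_gt ((d + 2).choose 2 + 2 * (m + 1).choose 3) (Aw w) with h2 | h2
  · rw [min_eq_left (by omega), ← card_tfin]
    exact (t_ranks K n w m d (by omega) hw hBig).2 h2
  have hex : ∃ k, 2 ≤ k ∧ Fq m ≤ Nat.card {a // w a = k} * (k * (k + 1)) := by
    by_contra hcon
    push Not at hcon
    have h3 := tail_bound w hw1 (Fq m) m fun k hk _ => (hcon k hk).le
    have h4 : (∑ a, if w a < m + 2 then w a * (w a + 1) else 0) = 2 * Aw w := by
      unfold Aw
      rw [Finset.mul_sum]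
      refine Finset.sum_congr rfl fun a _ => ?_
      rw [if_pos (by have := hw a; omega), two_choose']
    have h5 := num3 hm2 hd
    have h6 := R3h.two_choose' d
    have h7 := R4h.three_choose m
    nlinarith
  obtain ⟨hf1, hf2⟩ := Nat.find_spec hex
  have hfmin := fun k => Nat.find_min hex (m := k)
  obtain ⟨k₀, hk₀⟩ : ∃ k₀, k₀ = Nat.find hex := ⟨_, rfl⟩
  rw [← hk₀] at hf1 hf2 hfmin
  have hF0 : 0 < Fq m := by unfold Fq; positivity
  have hkm : k₀ ≤ m := by
    have h3 : 0 < Nat.card {a // w a = k₀} := by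
      by_contra h0
      rw [Nat.eq_zero_of_not_pos h0] at hf2
      omega
    obtain ⟨⟨a, ha⟩⟩ := (Nat.card_pos_iff.1 h3).1
    rw [← ha]
    exact hw a
  refine rank4 K k₀ m (by omega) hkm hm2 n w hw d hd ?_ hf2 h2
  obtain ⟨κ, hκ⟩ : ∃ κ, k₀ = κ + 2 := ⟨k₀ - 2, by omega⟩
  have h3 := tail_bound w hw1 (Fq m) κ fun k hk hk' => by
    by_contra h4
    exact hfmin k (by omega) ⟨hk, (not_le.1 h4).le⟩
  rw [hκ]
  have h4 : (κ + 2) * Fq m ≤ m * Fq m := Nat.mul_le_mul_right _ (by omega)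
  have h5 : (κ + 2) * Fq m = κ * Fq m + 2 * Fq m := by ring
  omega

/-- The ranks in every large degree. -/
theorem rank6 (K : Type) [Field K] [CharZero K] (m : ℕ) (hm2 : 2 ≤ m) (n : ℕ) (w : Fin n → ℕ)
    (hw : ∀ a, w a ≤ m) (d : ℕ) (hd : (m + 2) * (2 * (m * m) + 4 * m + 3) ≤ d + 1) :
    RkS (PF K w) (Tset d) (min ((d + 2).choose 2) (Aw w)) := by
  classical
  have : Infinite K := CharZero.infinite K
  have hw2 : ∀ a, w2 w a ≤ m := by
    intro a
    unfold w2
    split_ifs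
    · exact Nat.zero_le _
    · exact hw a
  have hw21 : ∀ a, w2 w a ≠ 1 := by
    intro a
    unfold w2
    split_ifs with h
    · omega
    · exact h
  have h5 := rank5 K m hm2 n (w2 w) hw2 hw21 d hd
  rw [← coe_Tfin] at h5 ⊢
  have h6 := rk_simple T_RK (Tfin d) h5
  have hA := Aw_w2 w
  have h7 : min (Tfin d).card (min ((d + 2).choose 2) (Aw (w2 w)) +
      (Finset.univ.filter fun a => w a = 1).card) = min ((d + 2).choose 2) (Aw w) := by
    rw [card_Tfin']
    omega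
  rw [h7] at h6
  exact h6

/-- Expected dimension in every large degree, for general points. -/
theorem exp_large (L : Type) [Field L] [CharZero L] (m : ℕ) (hm2 : 2 ≤ m) {n : ℕ}
    (w : Fin n → ℕ) (hw : ∀ a, w a ≤ m) (D : ℕ)
    (hD : (m + 2) * (2 * (m * m) + 4 * m + 3) ≤ D + 1) :
    ∃ F : MvPolynomial (Fin n × Fin 2) ℚ, F ≠ 0 ∧ ∀ P : Fin n → Fin 2 → L,
      MvPolynomial.aeval (fun ij : Fin n × Fin 2 => P ij.1 ij.2) F ≠ 0 →
        ∀ d : ℕ, (D ≤ d ∨ (D + 2).choose 2 ≤ Aw w) → ExpDim L w P d := by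
  classical
  have hrank : ∀ d, D ≤ d → RkS (PF ℚ w) (Tset d) (min ((d + 2).choose 2) (Aw w)) :=
    fun d hd => rank6 ℚ m hm2 n w hw d (by omega)
  have hex : ∃ d, D ≤ d ∧ Aw w ≤ (d + 2).choose 2 := by
    refine ⟨D + Aw w, by omega, ?_⟩
    have h1 := H932R7.two_choose (D + Aw w)
    nlinarith
  obtain ⟨hfa, hfb⟩ := Nat.find_spec hex
  have hfmin := fun d => Nat.find_min hex (m := d)
  obtain ⟨f, hf⟩ : ∃ f, f = Nat.find hex := ⟨_, rfl⟩
  rw [← hf] at hfa hfb hfmin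
  have hr1 := hrank f hfa
  rw [min_eq_right hfb] at hr1
  obtain ⟨F1, hF1, hF1'⟩ := exp_of_indep (L := L) T_HOP hr1
  obtain ⟨F2, hF2, hF2'⟩ : ∃ F : MvPolynomial (Fin n × Fin 2) ℚ, F ≠ 0 ∧
      ∀ P : Fin n → Fin 2 → L,
      MvPolynomial.aeval (fun ij : Fin n × Fin 2 => P ij.1 ij.2) F ≠ 0 →
        ∀ d : ℕ, (D ≤ d ∨ (D + 2).choose 2 ≤ Aw w) → d < f → ExpDim L w P d := by
    rcases Nat.lt_or_ge D f with h | h
    · have h1 := hrank (f - 1) (by omega)
      have h2 := hfmin (f - 1) (by omega)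
      have h3 : (f - 1 + 2).choose 2 < Aw w := by
        by_contra h4
        exact h2 ⟨by omega, by omega⟩
      rw [min_eq_left h3.le, ← card_Tfin'] at h1
      obtain ⟨F, hF, hF'⟩ := exp_of_full (L := L) T_HOP h1
      exact ⟨F, hF, fun P hP d _ hd => hF' P hP d (by omega)⟩
    · have hDf : f = D := by omega
      by_cases hA : (D + 2).choose 2 ≤ Aw w
      · have h1 := hrank D le_rfl
        rw [min_eq_left hA, ← card_Tfin'] at h1
        obtain ⟨F, hF, hF'⟩ := exp_of_full (L := L) T_HOP h1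
        exact ⟨F, hF, fun P hP d _ hd => hF' P hP d (by omega)⟩
      · exact ⟨1, one_ne_zero, fun P _ d h1 h2 => by omega⟩
  refine ⟨F1 * F2, mul_ne_zero hF1 hF2, fun P hP d hd => ?_⟩
  rw [map_mul] at hP
  rcases Nat.lt_or_ge d f with h | h
  · exact hF2' P (right_ne_zero_of_mul hP) d hd h
  · exact hF1' P (left_ne_zero_of_mul hP) d h

end Pool.Agent.W608
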